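import Pool.Agent.H804.SC.Su2

/-!
# Short closed geodesics for metrics of cohomogeneity one on `S² × S¹` and homogeneous metrics on `S³`

`IsWarp L f`: the metric `dr² + f(r)² g_{S²}` on `S² × (ℝ / L ℤ)`, of volume `4 π ∫_0^L f²`.
`IsDiag L f h`: the metric `dr² + f(r)² dθ² + h(r)² dφ²`, `0 ≤ r ≤ L`, on `S² × (ℝ / 2 π ℤ)`, of volume
`4 π² ∫_0^L f h`.  `IsGeodesicW`, `IsGeodesicD`: geodesics of these metrics.  There is always a closed
geodesic of length `T` with `T³ ≤ π vol`, and equality holds for the product of the unit sphere and a circle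
of length `2 π`, whose closed geodesics have length at least `2 π`.

`IsGeodesicL a b c v`: geodesics of the left invariant metric on the group `S³` for which the left invariant
fields `q i`, `q j`, `q k` are orthogonal of length `a`, `b`, `c`; its volume is `2 π² a b c`.  There is a
closed geodesic of length `T` with `T³ ≤ 4 π vol`, with equality for the round sphere.
-/

open Real Set MeasureTheory Quaternion

namespace Pool.Agent.Results.MP_7ba37b_gt.CohomogeneityOne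

open H804SC

theorem result :
    -- `SO(3)`-invariant metrics
    (∀ (L : ℝ) (f : ℝ → ℝ), IsWarp L f →
      ∃ (γ : ℝ → EuclideanSpace ℝ (Fin 3) × ℂ) (T : ℝ), 0 < T ∧ IsGeodesicW L f 1 γ ∧
        (∀ t, γ (t + T) = γ t) ∧ T ^ 3 ≤ π * (4 * π * ∫ r in (0 : ℝ)..L, f r ^ 2)) ∧
    -- diagonal torus invariant metrics
    (∀ (L : ℝ) (f h : ℝ → ℝ), IsDiag L f h →
      ∃ (γ : ℝ → (EuclideanSpace ℝ (Fin 2) × ℝ) × ℂ) (T : ℝ), 0 < T ∧ IsGeodesicD L f h 1 γ ∧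
        (∀ t, γ (t + T) = γ t) ∧ T ^ 3 ≤ π * (4 * π ^ 2 * ∫ r in (0 : ℝ)..L, f r * h r)) ∧
    -- the product of the unit sphere and the circle of length `2 π`, in both classes
    (IsWarp (2 * π) (fun _ => 1) ∧
      (2 * π) ^ 3 = π * (4 * π * ∫ _ in (0 : ℝ)..(2 * π), (1 : ℝ) ^ 2) ∧
      ∀ (γ : ℝ → EuclideanSpace ℝ (Fin 3) × ℂ) (T : ℝ), 0 < T →
        IsGeodesicW (2 * π) (fun _ => 1) 1 γ → (∀ t, γ (t + T) = γ t) → 2 * π ≤ T) ∧
    (IsDiag π Real.sin (fun _ => 1) ∧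
      (2 * π) ^ 3 = π * (4 * π ^ 2 * ∫ r in (0 : ℝ)..π, Real.sin r * 1) ∧
      ∀ (γ : ℝ → (EuclideanSpace ℝ (Fin 2) × ℝ) × ℂ) (T : ℝ), 0 < T →
        IsGeodesicD π Real.sin (fun _ => 1) 1 γ → (∀ t, γ (t + T) = γ t) → 2 * π ≤ T) ∧
    -- left invariant metrics on `S³`
    (∀ a b c : ℝ, 0 < a → 0 < b → 0 < c → ∃ (γ : ℝ → ℍ[ℝ]) (T : ℝ), 0 < T ∧
      IsGeodesicL a b c 1 γ ∧ (∀ t, γ (t + T) = γ t) ∧
      T ^ 3 ≤ 4 * π * (2 * π ^ 2 * (a * b * c))) ∧
    ((2 * π) ^ 3 = 4 * π * (2 * π ^ 2 * (1 * 1 * 1)) ∧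
      ∀ (γ : ℝ → ℍ[ℝ]) (T : ℝ), 0 < T → IsGeodesicL 1 1 1 1 γ → (∀ t, γ (t + T) = γ t) →
        2 * π ≤ T) := by
  refine ⟨fun L f hf => short_W hf, fun L f h hf => short_D hf, ⟨warp_one, ?_, low_W⟩,
    ⟨diag_one, ?_, low_D⟩, fun a b c ha hb hc => short_L ha hb hc, by ring, low_L⟩
  · rw [intervalIntegral.integral_const, smul_eq_mul]
    ring
  · simp only [mul_one]
    rw [integral_sin, Real.cos_zero, Real.cos_pi]
    ring

end Pool.Agent.Results.MP_7ba37b_gt.CohomogeneityOne
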